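import Pool.Agent.Helper72.FQ.Wb
import Pool.Agent.Helper35.TZ.Conn
import Pool.Agent.Helper69.SLN.Root

/-!
# Project FQ (MP_0f6f3f_an), the node representations, part 1: the module

`W : Wb b A al` an orthonormal weight basis of `L`, `l` a node. `Fl W l`: the weights with positive coefficient at `l`; `v0 W l`: the vector of the minors of the coordinate subspace `Fl W l` in the tensor power; `Dh W l x`: the derivation of
`x : L` (in the weight basis); `cI`, `tp`: the coefficients of the weights of the standard basis vectors and of `v0`; `UU W l`: the smallest subspace which contains `v0` and is stable under the root vectors of negative level. `UU_L`: stable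
under `L`; `UU_G`: stable under the group; `UU_top`: an element of `UU` is the sum of a multiple of `v0` and a combination of standard basis vectors of lower weights, of level at most `tp l l - 1`.
-/

set_option autoImplicit false
set_option linter.unusedSectionVars false

open Matrix NormedSpace

namespace Pool.Agent.Helper90.FQ

open Pool.Agent.Helper96.SA Pool.Agent.Helper96.TO Pool.Agent.Helper69.SLN Pool.Agent.Helper72.FQ Pool.Agent.Helper35.TZ

variable {L : Type} [LieRing L] [LieAlgebra ℝ L] {N : ℕ} {θ : L ≃ₗ⁅ℝ⁆ L} {b : Module.Basis (Fin N) ℝ L}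
  {A : Submodule ℝ L} {ι : Type} [Fintype ι] {al : ι → Module.Dual ℝ A}

section Mod

variable (W : Wb b A al) (l : ι)

/-- The weights with positive coefficient at the node. -/
abbrev Fl : Type := {k : Fin N // 0 < W.cls k l}

/-- The tensor power. -/
abbrev VV : Type := VT (Fl W l) (Fin N)

/-- The coordinate subspace. -/
def E0 : Matrix (Fin N) (Fl W l) ℝ := (1 : Mat N).submatrix id Subtype.val

/-- The vector of the minors of the coordinate subspace. -/
def v0 : VV W l := PL (E0 W l)

/-- The action of `L`. -/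
noncomputable def Dh : L →ₗ[ℝ] VV W l →ₗ[ℝ] VV W l where
  toFun x := DT (hat W.O (TT_to b x))
  map_add' x y := LinearMap.ext fun v => by rw [map_add, hat_add, DT_add, LinearMap.add_apply]
  map_smul' c x := LinearMap.ext fun v => by rw [map_smul, hat_smul, DT_smul, RingHom.id_apply, LinearMap.smul_apply]

theorem Dh_apply (x : L) (v : VV W l) : Dh W l x v = DT (hat W.O (TT_to b x)) v := rfl

theorem Dh_lie (x y : L) (v : VV W l) : Dh W l ⁅x, y⁆ v = Dh W l x (Dh W l y v) - Dh W l y (Dh W l x v) := by
  rw [Dh_apply, TT_lie_to, hat_sub, hat_mul W.h2, hat_mul W.h2, DT_lie]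
  rfl

/-- The coefficients of the weight of a standard basis vector. -/
def cI (I : Fl W l → Fin N) (j : ι) : ℤ := ∑ k, W.cls (I k) j

/-- The coefficients of the highest weight. -/
def tp (j : ι) : ℤ := ∑ k : Fl W l, W.cls k.1 j

theorem tp_nonneg (j : ι) : 0 ≤ tp W l j := by
  refine Finset.sum_nonneg fun k _ => ?_
  rcases W.sgn k.1 with h | h
  · exact h j
  · exact absurd (h l) (not_le.2 k.2)

theorem v0_self : v0 W l Subtype.val = 1 := by
  have h : ((1 : Mat N).submatrix (Subtype.val : Fl W l → Fin N) Subtype.val) = 1 := Matrix.submatrix_one _ Subtype.val_injective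
  have e : (E0 W l).submatrix (Subtype.val : Fl W l → Fin N) id = 1 := by
    rw [← h]
    rfl
  rw [v0, PL_apply, e, Matrix.det_one]

theorem v0_ne : v0 W l ≠ 0 := fun h => by
  have h1 := v0_self W l
  rw [h, Pi.zero_apply] at h1
  exact zero_ne_one h1

theorem v0_supp {I : Fl W l → Fin N} (h : v0 W l I ≠ 0) (j : ι) : cI W l I j = tp W l j := by
  rw [v0, PL_apply, Matrix.det_apply] at h
  obtain ⟨σ, _, hσ⟩ := Finset.exists_ne_zero_of_sum_ne_zero h
  have h1 : ∏ i, ((E0 W l).submatrix I id) (σ i) i ≠ 0 := fun h2 => hσ (by rw [h2, smul_zero])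
  have h2 : ∀ k : Fl W l, I (σ k) = k.1 := by
    intro k
    have h3 := (Finset.prod_ne_zero_iff.1 h1) k (Finset.mem_univ _)
    by_contra h4
    exact h3 (Matrix.one_apply_ne h4)
  rw [cI, tp, ← Equiv.sum_comp σ]
  exact Finset.sum_congr rfl fun k _ => by rw [h2]

theorem Dh_A (a : A) (v : VV W l) (I : Fl W l → Fin N) : Dh W l (a : L) v I = (∑ k, W.wt (I k) a) * v I := by
  rw [Dh_apply, W.hat_A, DT_apply, Finset.sum_mul]
  refine Finset.sum_congr rfl fun k _ => ?_
  rw [Finset.sum_eq_single (I k)]
  · rw [Matrix.diagonal_apply_eq, Function.update_eq_self]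
  · intro j _ hj
    rw [Matrix.diagonal_apply_ne _ hj.symm, zero_mul]
  · intro h
    exact absurd (Finset.mem_univ _) h

theorem wt_cI (a : A) (I : Fl W l → Fin N) : ∑ k, W.wt (I k) a = ∑ j, (cI W l I j : ℝ) * al j a := by
  have h : ∀ k, W.wt (I k) a = ∑ j, (W.cls (I k) j : ℝ) * al j a := by
    intro k
    rw [W.eq, LinearMap.sum_apply]
    rfl
  simp only [h]
  rw [Finset.sum_comm]
  refine Finset.sum_congr rfl fun j _ => ?_
  rw [← Finset.sum_mul, cI]
  push_cast
  rfl

theorem Dh_supp (hl : LinearIndependent ℝ al) {c : ι → ℤ} {x : L} (hx : Wv A (∑ j, (c j : ℝ) • al j) x) {v : VV W l}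
    {I : Fl W l → Fin N} (h : Dh W l x v I ≠ 0) : ∃ I', v I' ≠ 0 ∧ ∀ j, cI W l I j = cI W l I' j + c j := by
  rw [Dh_apply, DT_apply] at h
  obtain ⟨k, _, hk⟩ := Finset.exists_ne_zero_of_sum_ne_zero h
  obtain ⟨m, _, hm⟩ := Finset.exists_ne_zero_of_sum_ne_zero hk
  refine ⟨Function.update I k m, right_ne_zero_of_mul hm, fun j => ?_⟩
  have h1 := W.hat_supp hx (left_ne_zero_of_mul hm)
  have h2 := W.cls_eq hl h1 j
  rw [cI, cI, ← Finset.add_sum_erase _ _ (Finset.mem_univ k), ← Finset.add_sum_erase (Finset.univ) (fun q => W.cls (Function.update I k m q) j) (Finset.mem_univ k),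
    Function.update_self, h2]
  have h3 : ∑ q ∈ Finset.univ.erase k, W.cls (Function.update I k m q) j = ∑ q ∈ Finset.univ.erase k, W.cls (I q) j :=
    Finset.sum_congr rfl fun q hq => by rw [Function.update_of_ne (Finset.ne_of_mem_erase hq)]
  rw [h3]
  ring

/-- The root vectors of negative level. -/
def Sl : Set L := {y | ∃ c : ι → ℕ, 1 ≤ c l ∧ Wv A (-∑ j, (c j : ℝ) • al j) y}

/-- The module. -/
noncomputable def UU : Submodule ℝ (VV W l) := hwU (Dh W l) (Sl (A := A) (al := al) l) (v0 W l)

theorem v0_mem_UU : v0 W l ∈ UU W l := Pool.Agent.Helper72.FQ.v0_mem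

theorem Dh_v0 (hl : LinearIndependent ℝ al) {c : ι → ℤ} (hc : 0 ≤ c l) {x : L} (hx : Wv A (∑ j, (c j : ℝ) • al j) x) :
    Dh W l x (v0 W l) ∈ Submodule.span ℝ {v0 W l} := by
  have h1 : hat W.O (TT_to b x) * E0 W l = E0 W l * ((hat W.O (TT_to b x)).submatrix Subtype.val Subtype.val) := by
    ext i q
    have e1 : (hat W.O (TT_to b x) * E0 W l) i q = hat W.O (TT_to b x) i q.1 := by
      rw [Matrix.mul_apply, Finset.sum_eq_single q.1]
      · change _ * (1 : Mat N) q.1 q.1 = _
        rw [Matrix.one_apply_eq, mul_one]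
      · intro j _ hj
        change _ * (1 : Mat N) j q.1 = _
        rw [Matrix.one_apply_ne hj, mul_zero]
      · intro h
        exact absurd (Finset.mem_univ _) h
    refine e1.trans ?_
    change _ = ∑ j : Fl W l, E0 W l i j * (hat W.O (TT_to b x)) j.1 q.1
    by_cases hi : 0 < W.cls i l
    · rw [Finset.sum_eq_single ⟨i, hi⟩]
      · change _ = (1 : Mat N) i i * _
        rw [Matrix.one_apply_eq, one_mul]
      · intro j _ hj
        change (1 : Mat N) i j.1 * _ = _
        rw [Matrix.one_apply_ne (fun h => hj (Subtype.ext h.symm)), zero_mul]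
      · intro h
        exact absurd (Finset.mem_univ _) h
    · rw [Finset.sum_eq_zero]
      · by_contra h
        have h2 := W.cls_eq hl (W.hat_supp hx h) l
        have h3 := q.2
        omega
      · intro j _
        change (1 : Mat N) i j.1 * _ = _
        rw [Matrix.one_apply_ne (fun h => hi (by rw [h]; exact j.2)), zero_mul]
  rw [Dh_apply, v0, DT_PL _ _ _ h1]
  exact Submodule.smul_mem _ _ (Submodule.mem_span_singleton_self _)

/-- The module is stable under `L`. -/
theorem UU_L (hl : LinearIndependent ℝ al) (x : L) {u : VV W l} (hu : u ∈ UU W l) : Dh W l x u ∈ UU W l := by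
  refine hwU_stable (Dh_lie W l) (fun K hK hz => W.span_top K fun k x hx => ?_) x hu
  rcases lt_or_ge (W.cls k l) 0 with h | h
  · refine hK ⟨fun j => (-(W.cls k j)).toNat, ?_, ?_⟩
    · dsimp only
      omega
    · have h1 : ∀ j, W.cls k j ≤ 0 := by
        rcases W.sgn k with h2 | h2
        · exact absurd (h2 l) (not_le.2 h)
        · exact h2
      have h2 : W.wt k = -∑ j, (((-(W.cls k j)).toNat : ℕ) : ℝ) • al j := by
        rw [W.eq, ← Finset.sum_neg_distrib]
        refine Finset.sum_congr rfl fun j _ => ?_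
        have h3 : (((-(W.cls k j)).toNat : ℕ) : ℝ) = -(W.cls k j : ℝ) := by
          have h4 : (((-(W.cls k j)).toNat : ℕ) : ℤ) = -(W.cls k j) := Int.toNat_of_nonneg (by linarith [h1 j])
          exact_mod_cast h4
        rw [h3]
        refine LinearMap.ext fun a => ?_
        simp only [LinearMap.smul_apply, LinearMap.neg_apply, smul_eq_mul]
        ring
      rw [← h2]
      exact hx
  · refine hz x (Dh_v0 W l hl h ?_)
    rw [← W.eq]
    exact hx

/-- The vectors of the module: a multiple of `v0` and lower weights. -/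
theorem UU_top (hl : LinearIndependent ℝ al) {u : VV W l} (hu : u ∈ UU W l) :
    ∃ c : ℝ, ∀ I, (u - c • v0 W l) I ≠ 0 → (∀ j, cI W l I j ≤ tp W l j) ∧ cI W l I l ≤ tp W l l - 1 := by
  let U' : Submodule ℝ (VV W l) :=
    { carrier := {u | ∃ c : ℝ, ∀ I, (u - c • v0 W l) I ≠ 0 → (∀ j, cI W l I j ≤ tp W l j) ∧ cI W l I l ≤ tp W l l - 1}
      add_mem' := by
        rintro u v ⟨c, hc⟩ ⟨c', hc'⟩
        refine ⟨c + c', fun I hI => ?_⟩
        have e : (u + v - (c + c') • v0 W l) I = (u - c • v0 W l) I + (v - c' • v0 W l) I := by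
          simp only [Pi.sub_apply, Pi.add_apply, Pi.smul_apply, smul_eq_mul]
          ring
        rw [e] at hI
        by_cases h1 : (u - c • v0 W l) I = 0
        · rw [h1, zero_add] at hI
          exact hc' I hI
        · exact hc I h1
      zero_mem' := ⟨0, fun I hI => by simp at hI⟩
      smul_mem' := by
        rintro s u ⟨c, hc⟩
        refine ⟨s * c, fun I hI => hc I fun h => hI ?_⟩
        have e : (s • u - (s * c) • v0 W l) I = s * (u - c • v0 W l) I := by
          simp only [Pi.sub_apply, Pi.smul_apply, smul_eq_mul]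
          ring
        rw [e, h, mul_zero] }
  have h1 : UU W l ≤ U' := by
    refine hwU_le ⟨1, fun I hI => by simp at hI⟩ ?_
    rintro y ⟨m, hm, hy⟩ u ⟨c, hc⟩
    refine ⟨0, fun I hI => ?_⟩
    have hy' : Wv A (∑ j, ((-(m j : ℤ) : ℤ) : ℝ) • al j) y := by
      have e : ∑ j, ((-(m j : ℤ) : ℤ) : ℝ) • al j = -∑ j, (m j : ℝ) • al j := by
        rw [← Finset.sum_neg_distrib]
        refine Finset.sum_congr rfl fun j _ => ?_
        push_cast
        refine LinearMap.ext fun a => ?_
        simp only [LinearMap.smul_apply, LinearMap.neg_apply, smul_eq_mul]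
        ring
      rw [e]
      exact hy
    rw [zero_smul, sub_zero] at hI
    have e2 : Dh W l y u = c • Dh W l y (v0 W l) + Dh W l y (u - c • v0 W l) := by
      rw [map_sub, map_smul]
      abel
    rw [e2, Pi.add_apply] at hI
    have hml : (1 : ℤ) ≤ m l := by exact_mod_cast hm
    by_cases h2 : (c • Dh W l y (v0 W l)) I = 0
    · rw [h2, zero_add] at hI
      obtain ⟨I', h3, h4⟩ := Dh_supp W l hl hy' hI
      obtain ⟨h5, h6⟩ := hc I' h3
      refine ⟨fun j => ?_, ?_⟩
      · have := h4 j
        have := h5 j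
        omega
      · have := h4 l
        omega
    · rw [Pi.smul_apply, smul_eq_mul] at h2
      obtain ⟨I', h3, h4⟩ := Dh_supp W l hl hy' (right_ne_zero_of_mul h2)
      have h5 := v0_supp W l h3
      refine ⟨fun j => ?_, ?_⟩
      · have := h4 j
        have := h5 j
        omega
      · have := h4 l
        have := h5 l
        omega
  exact h1 hu

end Mod

section Grp

variable (W : Wb b A al) (l : ι)

theorem TT_to_eq (x : L) : TT_to b x = LinearMap.toMatrix b b (LieAlgebra.ad ℝ L x) := rfl

/-- The module is stable under the group. -/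
theorem UU_G (h : CartanBasis θ b) (hl : LinearIndependent ℝ al) {g : GL (Fin N) ℝ} (hg : g ∈ autC b) {u : VV W l} (hu : u ∈ UU W l) :
    RT (hat W.O (g : Mat N)) u ∈ UU W l := by
  have h1 := component_le h hg
  clear hg
  induction h1 using Subgroup.closure_induction'' generalizing u with
  | one =>
    rw [Units.val_one, hat_one W.h1, RT_one]
    exact hu
  | mem x hx =>
    obtain ⟨y, rfl⟩ := hx
    dsimp only
    rw [ex_coe, hat_exp W.h1 W.h2]
    exact RT_exp_mem _ _ (fun v hv => UU_L W l hl y hv) hu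
  | inv_mem x hx =>
    obtain ⟨y, rfl⟩ := hx
    dsimp only
    rw [← ex_neg, ex_coe, hat_exp W.h1 W.h2, ← TT_to_eq, ← map_neg]
    exact RT_exp_mem _ _ (fun v hv => UU_L W l hl (-y) hv) hu
  | mul x y _ _ ihx ihy =>
    rw [Units.val_mul, hat_mul W.h2, RT_mul]
    exact ihx (ihy hu)

end Grp

end Pool.Agent.Helper90.FQ
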