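import Pool.Agent.Helper90.FQ.Nr2
import Pool.Agent.Helper85.AE.Smp
import Pool.Agent.Helper87.FQ.Le

/-!
# Project FQ (MP_0f6f3f_an), the node representations, part 3: the representation

`B.rr X = Qᵀ * RM (hat X) * Q` for a matrix `X`; `B.rho h hl : autC b →* Matrix (Fin (B.M + 1)) (Fin (B.M + 1)) ℝ`. `rho_cont`, `rho_transpose`, `rho_ea` (the diagonal matrices), `rho_e0` (the stabilizer of the first line fixes the line of `v0`), `cyc`
(the first vector is cyclic), `irr` (irreducible).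
-/

set_option autoImplicit false
set_option linter.unusedSectionVars false

open Matrix NormedSpace Filter Topology

namespace Pool.Agent.Helper90.FQ

open Pool.Agent.Helper96.SA Pool.Agent.Helper96.TO Pool.Agent.Helper69.SLN Pool.Agent.Helper72.FQ Pool.Agent.Helper35.TZ Pool.Agent.Helper2.BC

section RM

variable {n d : Type} [Fintype n] [DecidableEq n] [Fintype d] [DecidableEq d]

/-- The matrix of `RT g`. -/
def RM (d : Type) [Fintype d] (g : Matrix n n ℝ) : Matrix (d → n) (d → n) ℝ := fun I J => ∏ k, g (I k) (J k)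

theorem RM_mulVec (g : Matrix n n ℝ) (v : VT d n) : RM d g *ᵥ v = RT g v := rfl

theorem RM_mul (g h : Matrix n n ℝ) : RM d (g * h) = RM d g * RM d h := by
  apply Matrix.ext_of_mulVec_single
  intro I
  rw [RM_mulVec, ← Matrix.mulVec_mulVec, RM_mulVec, RM_mulVec, RT_mul]

theorem RM_one : RM d (1 : Matrix n n ℝ) = 1 := by
  apply Matrix.ext_of_mulVec_single
  intro I
  rw [RM_mulVec, Matrix.one_mulVec, RT_one]

theorem RM_transpose (g : Matrix n n ℝ) : RM d gᵀ = (RM d g)ᵀ := rfl

theorem RM_diagonal (x : n → ℝ) : RM d (diagonal x) = diagonal fun I => ∏ k, x (I k) := by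
  ext I J
  by_cases hIJ : I = J
  · subst hIJ
    rw [Matrix.diagonal_apply_eq]
    exact Finset.prod_congr rfl fun k _ => by rw [Matrix.diagonal_apply_eq]
  · rw [Matrix.diagonal_apply_ne _ hIJ]
    obtain ⟨k, hk⟩ := Function.ne_iff.1 hIJ
    exact Finset.prod_eq_zero (Finset.mem_univ k) (Matrix.diagonal_apply_ne _ hk)

theorem continuous_RM : Continuous (RM d : Matrix n n ℝ → Matrix (d → n) (d → n) ℝ) := by
  refine continuous_pi fun I => continuous_pi fun J => ?_
  refine continuous_finsetProd _ fun k _ => ?_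
  exact (continuous_apply (J k)).comp (continuous_apply (I k))

end RM

variable {L : Type} [LieRing L] [LieAlgebra ℝ L] {N : ℕ} {θ : L ≃ₗ⁅ℝ⁆ L} {b : Module.Basis (Fin N) ℝ L}
  {A : Submodule ℝ L} {ι : Type} [Fintype ι] {al : ι → Module.Dual ℝ A}

namespace NB

variable {W : Wb b A al} {l : ι} (B : NB W l)

/-- The matrix of the action in the weight basis of the module. -/
def rr (X : Mat N) : Mat (B.M + 1) := B.Qᵀ * (RM (Fl W l) (hat W.O X) * B.Q)

theorem continuous_hat (O : Mat N) : Continuous (hat O : Mat N → Mat N) := by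
  unfold hat
  exact (continuous_const.matrix_mul continuous_id).matrix_mul continuous_const

theorem continuous_rr : Continuous B.rr :=
  continuous_const.matrix_mul ((continuous_RM.comp (continuous_hat W.O)).matrix_mul continuous_const)

theorem rr_transpose (X : Mat N) : B.rr Xᵀ = (B.rr X)ᵀ := by
  unfold rr
  rw [← hat_transpose, RM_transpose, Matrix.transpose_mul, Matrix.transpose_mul, Matrix.transpose_transpose, Matrix.mul_assoc]

theorem mul_proj {m : Type} (M : Matrix (Fl W l → Fin N) m ℝ) (hM : ∀ k, (fun I => M I k) ∈ UU W l) : B.Q * (B.Qᵀ * M) = M := by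
  ext I k
  exact congrFun (B.pr _ (hM k)) I

theorem Q_mulVec_mem (w : Fin (B.M + 1) → ℝ) : B.Q *ᵥ w ∈ UU W l := by
  have e : B.Q *ᵥ w = ∑ k, w k • fun I => B.Q I k := by
    funext I
    rw [Matrix.mulVec, dotProduct, Finset.sum_apply]
    exact Finset.sum_congr rfl fun k _ => mul_comm _ _
  rw [e]
  exact Submodule.sum_mem _ fun k _ => Submodule.smul_mem _ _ (B.mem k)

theorem Q_inj {w w' : Fin (B.M + 1) → ℝ} (h : B.Q *ᵥ w = B.Q *ᵥ w') : w = w' := by
  have h1 := congrArg (fun v => B.Qᵀ *ᵥ v) h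
  simpa only [Matrix.mulVec_mulVec, B.h1, Matrix.one_mulVec] using h1

theorem RM_Q (h : CartanBasis θ b) (hl : LinearIndependent ℝ al) {g : GL (Fin N) ℝ} (hg : g ∈ autC b) :
    RM (Fl W l) (hat W.O (g : Mat N)) * B.Q = B.Q * B.rr (g : Mat N) :=
  (B.mul_proj _ fun k => UU_G W l h hl hg (B.mem k)).symm

theorem RT_Q (h : CartanBasis θ b) (hl : LinearIndependent ℝ al) {g : GL (Fin N) ℝ} (hg : g ∈ autC b) (w : Fin (B.M + 1) → ℝ) :
    RT (hat W.O (g : Mat N)) (B.Q *ᵥ w) = B.Q *ᵥ (B.rr (g : Mat N) *ᵥ w) := by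
  rw [Matrix.mulVec_mulVec, ← B.RM_Q h hl hg, ← Matrix.mulVec_mulVec]
  rfl

/-- The representation. -/
def rho (h : CartanBasis θ b) (hl : LinearIndependent ℝ al) : autC b →* Mat (B.M + 1) where
  toFun g := B.rr ((g : GL (Fin N) ℝ) : Mat N)
  map_one' := by
    unfold rr
    rw [OneMemClass.coe_one, Units.val_one, hat_one W.h1, RM_one, Matrix.one_mul, B.h1]
  map_mul' g g' := by
    conv_lhs => rw [rr, Subgroup.coe_mul, Units.val_mul, hat_mul W.h2, RM_mul, Matrix.mul_assoc, B.RM_Q h hl g'.2, ← Matrix.mul_assoc (RM _ _),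
      B.RM_Q h hl g.2, Matrix.mul_assoc, ← Matrix.mul_assoc, B.h1, Matrix.one_mul]

theorem rho_apply (h : CartanBasis θ b) (hl : LinearIndependent ℝ al) (g : autC b) : B.rho h hl g = B.rr ((g : GL (Fin N) ℝ) : Mat N) := rfl

theorem rho_cont (h : CartanBasis θ b) (hl : LinearIndependent ℝ al) : Continuous (B.rho h hl) :=
  B.continuous_rr.comp (Units.continuous_val.comp continuous_subtype_val)

theorem rho_transpose (h : CartanBasis θ b) (hl : LinearIndependent ℝ al) {g g' : autC b}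
    (hg : ((g' : GL (Fin N) ℝ) : Mat N) = ((g : GL (Fin N) ℝ) : Mat N)ᵀ) : B.rho h hl g' = (B.rho h hl g)ᵀ := by
  rw [rho_apply, rho_apply, hg, rr_transpose]

theorem rho_orth (h : CartanBasis θ b) (hl : LinearIndependent ℝ al) {g : autC b}
    (hg : ((g : GL (Fin N) ℝ) : Mat N)ᵀ * ((g : GL (Fin N) ℝ) : Mat N) = 1) : (B.rho h hl g)ᵀ * B.rho h hl g = 1 := by
  have h1 : (((g⁻¹ : autC b) : GL (Fin N) ℝ) : Mat N) = ((g : GL (Fin N) ℝ) : Mat N)ᵀ := by
    rw [Subgroup.coe_inv]
    exact (Matrix.inv_eq_left_inv hg) ▸ Matrix.coe_units_inv _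
  rw [← B.rho_transpose h hl h1, ← map_mul, inv_mul_cancel, map_one]

theorem rr_ex (a : A) : B.rr (exp (TT_to b (a : L))) = diagonal fun i => Real.exp (∑ j, ((tp W l j : ℝ) - B.n i j) * al j a) := by
  have h1 : hat W.O (exp (TT_to b (a : L))) = diagonal fun k => Real.exp (W.wt k a) := by
    rw [hat_exp W.h1 W.h2, W.hat_A, Matrix.exp_diagonal]
    congr 1
    funext k
    rw [Pi.coe_exp, Real.exp_eq_exp_ℝ]
  ext i k
  unfold rr
  rw [h1, RM_diagonal, Matrix.mul_apply]
  have h2 : ∀ I, B.Qᵀ i I * ((diagonal fun I : Fl W l → Fin N => ∏ k, Real.exp (W.wt (I k) a)) * B.Q) I k =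
      Real.exp (∑ j, ((tp W l j : ℝ) - B.n k j) * al j a) * (B.Qᵀ i I * B.Q I k) := by
    intro I
    rw [Matrix.diagonal_mul]
    by_cases hI : B.Q I k = 0
    · rw [hI]
      ring
    · rw [← Real.exp_sum, wt_cI]
      have h3 : ∑ j, (cI W l I j : ℝ) * al j a = ∑ j, ((tp W l j : ℝ) - B.n k j) * al j a := by
        refine Finset.sum_congr rfl fun j _ => ?_
        rw [B.wt k I hI j]
        push_cast
        ring
      rw [h3]
      ring
  rw [Finset.sum_congr rfl fun I _ => h2 I, ← Finset.mul_sum]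
  have h3 : ∑ I, B.Qᵀ i I * B.Q I k = (B.Qᵀ * B.Q) i k := rfl
  rw [h3, B.h1]
  by_cases hik : i = k
  · subst hik
    rw [Matrix.one_apply_eq, Matrix.diagonal_apply_eq, mul_one]
  · rw [Matrix.one_apply_ne hik, Matrix.diagonal_apply_ne _ hik, mul_zero]

/-- The representation on the flat. -/
theorem rho_ea (h : CartanBasis θ b) (hl : LinearIndependent ℝ al) (a : A) (ha : ex (TT_to b (a : L)) ∈ autC b) :
    B.rho h hl ⟨ex (TT_to b (a : L)), ha⟩ = diagonal fun i => Real.exp (∑ j, ((tp W l j : ℝ) - B.n i j) * al j a) := B.rr_ex a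

/-- The stabilizer of the first line fixes the line of `v0`. -/
theorem rho_e0 (h : CartanBasis θ b) (hl : LinearIndependent ℝ al) {g : autC b} (hg : ∀ i, i ≠ 0 → B.rho h hl g i 0 = 0) :
    RT (hat W.O ((g : GL (Fin N) ℝ) : Mat N)) (v0 W l) = B.rho h hl g 0 0 • v0 W l := by
  have h1 : ∀ c : ℝ, (B.Q *ᵥ (c • Pi.single 0 1 : Fin (B.M + 1) → ℝ)) = c • fun I => B.Q I 0 := by
    intro c
    rw [Matrix.mulVec_smul, Matrix.mulVec_single_one]
    rfl
  have h2 : B.rr ((g : GL (Fin N) ℝ) : Mat N) *ᵥ (Pi.single 0 1 : Fin (B.M + 1) → ℝ) = B.rho h hl g 0 0 • Pi.single 0 1 := by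
    rw [Matrix.mulVec_single_one]
    funext i
    rw [Matrix.col_apply, Pi.smul_apply, smul_eq_mul]
    by_cases hi : i = 0
    · subst hi
      rw [Pi.single_eq_same, mul_one]
      rfl
    · rw [Pi.single_eq_of_ne hi, mul_zero]
      exact hg i hi
  have h3 : v0 W l = B.c0 • (B.Q *ᵥ (Pi.single 0 1 : Fin (B.M + 1) → ℝ)) := by
    have := h1 1
    rw [one_smul, one_smul] at this
    rw [this]
    exact B.e0
  rw [h3, map_smul, B.RT_Q h hl g.2, h2, Matrix.mulVec_smul, smul_comm]

/-- A closed subspace which contains the curve contains the derivative. -/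
theorem deriv_mem {V : Type} [NormedAddCommGroup V] [NormedSpace ℝ V] [FiniteDimensional ℝ V] (S : Submodule ℝ V) {f : ℝ → V} {f' : V} {x : ℝ}
    (hf : HasDerivAt f f' x) (h : ∀ t, f t ∈ S) : f' ∈ S := by
  have hcl : IsClosed (S : Set V) := S.closed_of_finiteDimensional
  refine hcl.mem_of_tendsto (hasDerivAt_iff_tendsto_slope.1 hf) (Filter.Eventually.of_forall fun t => ?_)
  rw [slope]
  exact S.smul_mem _ (S.sub_mem (h t) (h x))

/-- The first vector is cyclic. -/
theorem cyc (h : CartanBasis θ b) (hl : LinearIndependent ℝ al) (S : Submodule ℝ (Fin (B.M + 1) → ℝ))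
    (hS : ∀ g : autC b, ∀ w ∈ S, B.rho h hl g *ᵥ w ∈ S) (h0 : (Pi.single 0 1 : Fin (B.M + 1) → ℝ) ∈ S) : S = ⊤ := by
  have h1 : UU W l ≤ S.map B.Q.mulVecLin := by
    refine hwU_le ?_ fun y _ u hu => ?_
    · rw [B.e0]
      refine Submodule.smul_mem _ _ ⟨_, h0, ?_⟩
      rw [Matrix.mulVecLin_apply, Matrix.mulVec_single_one]
      rfl
    · have h2 : HasDerivAt (fun t : ℝ => RT (exp (t • hat W.O (TT_to b y))) u) (Dh W l y u) 0 := by
        rw [hasDerivAt_pi]
        intro I
        have h3 := hasDerivAt_RT (hat W.O (TT_to b y)) u 0 I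
        rw [zero_smul, exp_zero, RT_one] at h3
        exact h3
      refine deriv_mem _ h2 fun t => ?_
      obtain ⟨w, hw, rfl⟩ := hu
      have h3 : exp (t • hat W.O (TT_to b y)) = hat W.O ((ex (TT_to b (t • y)) : GL (Fin N) ℝ) : Mat N) := by
        rw [ex_coe, hat_exp W.h1 W.h2, map_smul, hat_smul]
      have h4 : ex (TT_to b (t • y)) ∈ autC b := ex_mem_autC b _
      rw [h3, Matrix.mulVecLin_apply, B.RT_Q h hl h4]
      exact ⟨_, hS ⟨_, h4⟩ w hw, rfl⟩
  rw [eq_top_iff]
  intro w _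
  obtain ⟨w', hw', e⟩ := h1 (B.Q_mulVec_mem w)
  rw [← B.Q_inj e]
  exact hw'

/-- The representation is irreducible. -/
theorem irr (h : CartanBasis θ b) (hl : LinearIndependent ℝ al) (S : Submodule ℝ (Fin (B.M + 1) → ℝ))
    (hS : ∀ g : autC b, ∀ w ∈ S, B.rho h hl g *ᵥ w ∈ S) : S = ⊥ ∨ S = ⊤ := by
  by_cases hc : ∃ w ∈ S, w 0 ≠ 0
  · right
    refine B.cyc h hl S hS ?_
    obtain ⟨w, hw, hw0⟩ := hc
    have hfd : FiniteDimensional ℝ L := Module.Finite.of_basis b
    obtain ⟨H, hH⟩ := Pool.Agent.Helper85.AE.exists_val (A := A) hl (fun _ => (1 : ℝ))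
    have hcl : IsClosed (S : Set (Fin (B.M + 1) → ℝ)) := S.closed_of_finiteDimensional
    have h1 : Tendsto (fun t : ℝ => Real.exp (-(t * ∑ j, (tp W l j : ℝ))) •
        (B.rho h hl ⟨ex (TT_to b ((t • H : A) : L)), ex_mem_autC b _⟩ *ᵥ w)) atTop (𝓝 (w 0 • Pi.single 0 1)) := by
      rw [tendsto_pi_nhds]
      intro i
      have e : ∀ t : ℝ, (Real.exp (-(t * ∑ j, (tp W l j : ℝ))) •
        (B.rho h hl ⟨ex (TT_to b ((t • H : A) : L)), ex_mem_autC b _⟩ *ᵥ w)) i = Real.exp (-(t * ∑ j, (B.n i j : ℝ))) * w i := by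
        intro t
        rw [B.rho_ea, Pi.smul_apply, Matrix.mulVec_diagonal, smul_eq_mul, ← mul_assoc, ← Real.exp_add]
        congr 2
        simp only [map_smul, hH, smul_eq_mul, mul_one, ← Finset.sum_mul, Finset.sum_sub_distrib]
        ring
      simp only [e]
      by_cases hi : i = 0
      · subst hi
        simp only [B.n0, Nat.cast_zero, Finset.sum_const_zero, mul_zero, neg_zero, Real.exp_zero, one_mul]
        rw [Pi.smul_apply, Pi.single_eq_same, smul_eq_mul, mul_one]
        exact tendsto_const_nhds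
      · rw [Pi.smul_apply, Pi.single_eq_of_ne hi, smul_zero]
        have h2 : 0 < ∑ j, (B.n i j : ℝ) := by
          have h3 : (1 : ℝ) ≤ B.n i l := by exact_mod_cast B.nl i hi
          have h4 : (B.n i l : ℝ) ≤ ∑ j, (B.n i j : ℝ) := Finset.single_le_sum (f := fun j => (B.n i j : ℝ)) (fun j _ => Nat.cast_nonneg _) (Finset.mem_univ l)
          linarith
        have h3 : Tendsto (fun t : ℝ => Real.exp (-(t * ∑ j, (B.n i j : ℝ)))) atTop (𝓝 0) :=
          Real.tendsto_exp_neg_atTop_nhds_zero.comp (tendsto_id.atTop_mul_const h2)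
        have h4 := h3.mul_const (w i)
        rwa [zero_mul] at h4
    have h2 : w 0 • (Pi.single 0 1 : Fin (B.M + 1) → ℝ) ∈ S :=
      hcl.mem_of_tendsto h1 (Filter.Eventually.of_forall fun t => S.smul_mem _ (hS _ w hw))
    have h3 := S.smul_mem (w 0)⁻¹ h2
    rwa [smul_smul, inv_mul_cancel₀ hw0, one_smul] at h3
  · left
    push Not at hc
    have h1 : Submodule.span ℝ (Set.range fun g : autC b => B.rho h hl g *ᵥ (Pi.single 0 1 : Fin (B.M + 1) → ℝ)) = ⊤ := by
      refine B.cyc h hl _ (fun g w hw => ?_) (Submodule.subset_span ⟨1, ?_⟩)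
      · induction hw using Submodule.span_induction with
        | mem x hx =>
          obtain ⟨g', rfl⟩ := hx
          refine Submodule.subset_span ⟨g * g', ?_⟩
          dsimp only
          rw [map_mul, Matrix.mulVec_mulVec]
        | zero =>
          rw [Matrix.mulVec_zero]
          exact Submodule.zero_mem _
        | add x y _ _ hx hy =>
          rw [Matrix.mulVec_add]
          exact Submodule.add_mem _ hx hy
        | smul c x _ hx =>
          rw [Matrix.mulVec_smul]
          exact Submodule.smul_mem _ _ hx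
      · dsimp only
        rw [map_one, Matrix.one_mulVec]
    rw [eq_bot_iff]
    intro w hw
    have h2 : ∀ v, w ⬝ᵥ v = 0 := by
      intro v
      have hv : v ∈ Submodule.span ℝ (Set.range fun g : autC b => B.rho h hl g *ᵥ (Pi.single 0 1 : Fin (B.M + 1) → ℝ)) := by
        rw [h1]
        exact Submodule.mem_top
      induction hv using Submodule.span_induction with
      | mem x hx =>
        obtain ⟨g, rfl⟩ := hx
        dsimp only
        let g' : autC b := ⟨Pool.Agent.Helper87.FQ.ti ((g⁻¹ : autC b) : GL (Fin N) ℝ), Pool.Agent.Helper87.FQ.ti_mem_autC h (g⁻¹).2⟩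
        have hg' : ((g' : GL (Fin N) ℝ) : Mat N) = ((g : GL (Fin N) ℝ) : Mat N)ᵀ := by
          change ((((g⁻¹ : autC b) : GL (Fin N) ℝ)⁻¹ : GL (Fin N) ℝ) : Mat N)ᵀ = _
          rw [Subgroup.coe_inv, inv_inv]
        have h3 := hc _ (hS g' w hw)
        rw [B.rho_transpose h hl hg', Matrix.mulVec, dotProduct] at h3
        rw [Matrix.mulVec_single_one, dotProduct]
        refine Eq.trans ?_ h3
        exact Finset.sum_congr rfl fun i _ => mul_comm _ _
      | zero => exact dotProduct_zero _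
      | add x y _ _ hx hy => rw [dotProduct_add, hx, hy, add_zero]
      | smul c x _ hx => rw [dotProduct_smul, hx, smul_zero]
    exact (Submodule.mem_bot ℝ).2 (dotProduct_self_eq_zero.1 (h2 w))

end NB

end Pool.Agent.Helper90.FQ
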