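import Pool.Agent.Helper90.FQ.Nr1

/-!
# Project FQ (MP_0f6f3f_an), the node representations, part 2: orthonormal weight bases of the module

`exists_onb`: the matrix of an orthonormal basis of a subspace; `exists_wonb`: consisting of common eigenvectors of commuting diagonal operators. `NB W l`: an orthonormal weight basis of `UU W l` with `v0` as multiple of the first vector;
`exists_NB`.
-/

set_option autoImplicit false
set_option linter.unusedSectionVars false

open Matrix NormedSpace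

namespace Pool.Agent.Helper90.FQ

open Pool.Agent.Helper96.SA Pool.Agent.Helper96.TO Pool.Agent.Helper69.SLN Pool.Agent.Helper72.FQ Pool.Agent.Helper35.TZ

section Onb

variable {E : Type} [Fintype E] [DecidableEq E]

/-- The matrix of an orthonormal basis of a subspace. -/
theorem exists_onb (U : Submodule ℝ (E → ℝ)) : ∃ (m : ℕ) (P : Matrix E (Fin m) ℝ), Pᵀ * P = 1 ∧ (∀ k, (fun I => P I k) ∈ U) ∧
    ∀ u ∈ U, P *ᵥ (Pᵀ *ᵥ u) = u := by
  let U' : Submodule ℝ (EuclideanSpace ℝ E) := U.comap (WithLp.linearEquiv 2 ℝ (E → ℝ)).toLinearMap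
  let B := stdOrthonormalBasis ℝ U'
  refine ⟨Module.finrank ℝ U', Matrix.of fun I k => (B k : EuclideanSpace ℝ E) I, ?_, fun k => (B k).2, fun u hu => ?_⟩
  · ext i j
    rw [Matrix.mul_apply, Matrix.one_apply]
    have h1 := (orthonormal_iff_ite.1 B.orthonormal) i j
    rw [Submodule.coe_inner, PiLp.inner_apply] at h1
    rw [← h1]
    refine Finset.sum_congr rfl fun I _ => ?_
    simp [mul_comm]
  · have h1 : (WithLp.toLp 2 u : EuclideanSpace ℝ E) ∈ U' := hu
    have h2 := B.sum_repr ⟨WithLp.toLp 2 u, h1⟩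
    have h3 : ∀ k, (B.repr ⟨WithLp.toLp 2 u, h1⟩) k = ∑ I, (B k : EuclideanSpace ℝ E) I * u I := by
      intro k
      rw [B.repr_apply_apply, Submodule.coe_inner, PiLp.inner_apply]
      refine Finset.sum_congr rfl fun I _ => ?_
      simp [mul_comm]
    funext I
    have h4 := congrArg (fun z : U' => (z : EuclideanSpace ℝ E) I) h2
    simp only [h3] at h4
    rw [Matrix.mulVec, dotProduct]
    refine Eq.trans ?_ h4
    rw [Submodule.coe_sum]
    simp only [Submodule.coe_smul]
    rw [WithLp.ofLp_sum, Finset.sum_apply]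
    refine Finset.sum_congr rfl fun k _ => ?_
    simp [Matrix.mulVec, dotProduct, mul_comm]

/-- Common eigenvectors of commuting diagonal operators. -/
theorem exists_wonb {α : Type} (U : Submodule ℝ (E → ℝ)) (w : α → E → ℝ) (hU : ∀ a, ∀ u ∈ U, (fun I => w a I * u I) ∈ U) :
    ∃ (m : ℕ) (Q : Matrix E (Fin m) ℝ), Qᵀ * Q = 1 ∧ (∀ k, (fun I => Q I k) ∈ U) ∧ (∀ u ∈ U, Q *ᵥ (Qᵀ *ᵥ u) = u) ∧
      ∀ k, ∃ d : α → ℝ, ∀ I, Q I k ≠ 0 → ∀ a, w a I = d a := by
  obtain ⟨m, P, h1, h2, h3⟩ := exists_onb U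
  have h4 : ∀ M : Matrix E (Fin m) ℝ, (∀ k, (fun I => M I k) ∈ U) → P * (Pᵀ * M) = M := by
    intro M hM
    ext I k
    exact congrFun (h3 _ (hM k)) I
  let X : α → Mat m := fun a => Pᵀ * (diagonal (w a) * P)
  have hd : ∀ a, ∀ M : Matrix E (Fin m) ℝ, (∀ k, (fun I => M I k) ∈ U) → ∀ k, (fun I => (diagonal (w a) * M) I k) ∈ U := by
    intro a M hM k
    have e : (fun I => (diagonal (w a) * M) I k) = fun I => w a I * M I k := by
      funext I
      rw [Matrix.diagonal_mul]
    rw [e]
    exact hU a _ (hM k)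
  have h5 : ∀ a, P * X a = diagonal (w a) * P := fun a => h4 _ (hd a P h2)
  have h6 : ∀ a a', P * (X a * X a') = diagonal (w a) * (diagonal (w a') * P) := by
    intro a a'
    rw [← Matrix.mul_assoc, h5, Matrix.mul_assoc, h5]
  have h7 : ∀ a a', X a * X a' = X a' * X a := by
    intro a a'
    have e : P * (X a * X a') = P * (X a' * X a) := by
      rw [h6, h6, ← Matrix.mul_assoc, ← Matrix.mul_assoc, Matrix.diagonal_mul_diagonal, Matrix.diagonal_mul_diagonal]
      congr 2
      funext I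
      exact mul_comm _ _
    have e2 := congrArg (fun M => Pᵀ * M) e
    simp only [← Matrix.mul_assoc Pᵀ P, h1, Matrix.one_mul] at e2
    exact e2
  obtain ⟨O, hO1, hO2, hO⟩ := simDiag (Set.range X)
    (by
      rintro _ ⟨a, rfl⟩
      change (Pᵀ * (diagonal (w a) * P))ᵀ = _
      rw [Matrix.transpose_mul, Matrix.transpose_mul, Matrix.transpose_transpose, Matrix.diagonal_transpose, Matrix.mul_assoc])
    (by
      rintro _ ⟨a, rfl⟩ _ ⟨a', rfl⟩
      exact h7 a a')
  choose d hd2 using fun a => hO (X a) ⟨a, rfl⟩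
  refine ⟨m, P * O, ?_, fun k => ?_, fun u hu => ?_, fun k => ⟨fun a => d a k, fun I hI a => ?_⟩⟩
  · rw [Matrix.transpose_mul, Matrix.mul_assoc, ← Matrix.mul_assoc Pᵀ, h1, Matrix.one_mul, hO1]
  · have e : (fun I => (P * O) I k) = ∑ j, O j k • fun I => P I j := by
      funext I
      rw [Matrix.mul_apply, Finset.sum_apply]
      exact Finset.sum_congr rfl fun j _ => mul_comm _ _
    rw [e]
    exact U.sum_mem fun j _ => U.smul_mem _ (h2 j)
  · rw [Matrix.transpose_mul, ← Matrix.mulVec_mulVec, ← Matrix.mulVec_mulVec, Matrix.mulVec_mulVec _ O, hO2, Matrix.one_mulVec]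
    exact h3 u hu
  · have e : diagonal (w a) * (P * O) = P * O * diagonal (d a) := by
      rw [← Matrix.mul_assoc, ← h5, hd2 a, Matrix.mul_assoc, Matrix.mul_assoc, hO1, Matrix.mul_one, ← Matrix.mul_assoc]
    have e2 := congrFun (congrFun e I) k
    rw [Matrix.diagonal_mul, Matrix.mul_diagonal, mul_comm] at e2
    exact mul_left_cancel₀ hI e2

end Onb

variable {L : Type} [LieRing L] [LieAlgebra ℝ L] {N : ℕ} {θ : L ≃ₗ⁅ℝ⁆ L} {b : Module.Basis (Fin N) ℝ L}
  {A : Submodule ℝ L} {ι : Type} [Fintype ι] {al : ι → Module.Dual ℝ A}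

/-- An orthonormal weight basis of the module, `v0` is a multiple of the first vector. -/
structure NB (W : Wb b A al) (l : ι) where
  /-- the dimension minus one -/
  M : ℕ
  /-- the matrix -/
  Q : Matrix (Fl W l → Fin N) (Fin (M + 1)) ℝ
  h1 : Qᵀ * Q = 1
  mem : ∀ k, (fun I => Q I k) ∈ UU W l
  pr : ∀ u ∈ UU W l, Q *ᵥ (Qᵀ *ᵥ u) = u
  /-- differences of weights -/
  n : Fin (M + 1) → ι → ℕ
  wt : ∀ k I, Q I k ≠ 0 → ∀ j, cI W l I j = tp W l j - n k j
  n0 : ∀ j, n 0 j = 0
  nl : ∀ k, k ≠ 0 → 1 ≤ n k l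
  /-- the factor -/
  c0 : ℝ
  hc0 : c0 ≠ 0
  e0 : v0 W l = c0 • fun I => Q I 0

variable (W : Wb b A al) (l : ι)

theorem exists_NB (hl : LinearIndependent ℝ al) : Nonempty (NB W l) := by
  obtain ⟨m, Q, h1, h2, h3, h4⟩ := exists_wonb (UU W l) (fun (a : A) (I : Fl W l → Fin N) => ∑ k, W.wt (I k) a) (fun a u hu => by
    have e : (fun I => (∑ k, W.wt (I k) a) * u I) = Dh W l (a : L) u := by
      funext I
      rw [Dh_A]
    rw [e]
    exact UU_L W l hl _ hu)
  have hne : ∀ k, ∃ I, Q I k ≠ 0 := by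
    intro k
    by_contra hcon
    push Not at hcon
    have h5 : (Qᵀ * Q) k k = 1 := by rw [h1, Matrix.one_apply_eq]
    rw [Matrix.mul_apply] at h5
    simp [hcon] at h5
  choose J hJ using hne
  have hcl : ∀ k I, Q I k ≠ 0 → ∀ j, cI W l I j = cI W l (J k) j := by
    intro k I hI j
    obtain ⟨d, hd⟩ := h4 k
    have h5 : ∑ j, ((cI W l I j : ℝ) - cI W l (J k) j) • al j = 0 := by
      refine LinearMap.ext fun a => ?_
      have h6 : ∑ j, (cI W l I j : ℝ) * al j a = ∑ j, (cI W l (J k) j : ℝ) * al j a := by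
        rw [← wt_cI, ← wt_cI, hd I hI a, hd (J k) (hJ k) a]
      rw [LinearMap.sum_apply, LinearMap.zero_apply]
      simp only [LinearMap.smul_apply, smul_eq_mul, sub_mul, Finset.sum_sub_distrib, h6, sub_self]
    have h7 := Fintype.linearIndependent_iff.1 hl _ h5 j
    have h8 : (cI W l I j : ℝ) = cI W l (J k) j := by linarith
    exact_mod_cast h8
  -- every column is of class `tp` or lower
  have hlow : ∀ k, (∀ j, cI W l (J k) j ≤ tp W l j) ∧ (cI W l (J k) l ≤ tp W l l - 1 ∨ ∃ c : ℝ, (fun I => Q I k) = c • v0 W l) := by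
    intro k
    obtain ⟨c, hc⟩ := UU_top W l hl (h2 k)
    by_cases h5 : ((fun I => Q I k) - c • v0 W l) (J k) = 0
    · have h6 : v0 W l (J k) ≠ 0 := by
        intro h7
        rw [Pi.sub_apply, Pi.smul_apply, h7, smul_zero, sub_zero] at h5
        exact hJ k h5
      have h7 := v0_supp W l h6
      refine ⟨fun j => (h7 j).le, Or.inr ⟨c, ?_⟩⟩
      funext I
      by_contra h8
      have h9 : ((fun I => Q I k) - c • v0 W l) I ≠ 0 := fun h => h8 (sub_eq_zero.1 h)
      have h10 := (hc I h9).2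
      have h11 : Q I k = 0 := by
        by_contra h12
        have := hcl k I h12 l
        have := h7 l
        omega
      have h12 : v0 W l I = 0 := by
        by_contra h13
        have := v0_supp W l h13 l
        omega
      apply h9
      rw [Pi.sub_apply, Pi.smul_apply, h12, h11, smul_zero, sub_zero]
    · exact ⟨(hc _ h5).1, Or.inl (hc _ h5).2⟩
  have hex : ∃ i0, ∃ c : ℝ, (fun I => Q I i0) = c • v0 W l := by
    by_contra hcon
    push Not at hcon
    have h5 : Qᵀ *ᵥ v0 W l = 0 := by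
      funext k
      rw [Matrix.mulVec, dotProduct, Pi.zero_apply]
      refine Finset.sum_eq_zero fun I _ => ?_
      by_contra h6
      have h7 := v0_supp W l (right_ne_zero_of_mul h6) l
      have h8 := hcl k I (left_ne_zero_of_mul h6) l
      rcases (hlow k).2 with h9 | ⟨c, h9⟩
      · omega
      · exact hcon k c h9
    have h6 := h3 _ (v0_mem_UU W l)
    rw [h5, Matrix.mulVec_zero] at h6
    exact v0_ne W l h6.symm
  obtain ⟨i0, c, hc⟩ := hex
  have hc0 : c ≠ 0 := by
    rintro rfl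
    rw [zero_smul] at hc
    exact hJ i0 (congrFun hc _)
  have hi0 : ∀ j, cI W l (J i0) j = tp W l j := by
    refine v0_supp W l fun h5 => hJ i0 ?_
    have h6 := congrFun hc (J i0)
    rw [Pi.smul_apply, h5, smul_zero] at h6
    exact h6
  have huniq : ∀ k, k ≠ i0 → cI W l (J k) l ≤ tp W l l - 1 := by
    intro k hk
    rcases (hlow k).2 with h9 | ⟨c', h9⟩
    · exact h9
    · exfalso
      have h10 : (Qᵀ * Q) k i0 = 0 := by rw [h1, Matrix.one_apply_ne hk]
      have h11 : (Qᵀ * Q) i0 i0 = 1 := by rw [h1, Matrix.one_apply_eq]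
      have e1 : (Qᵀ * Q) k i0 = c' * c * ∑ I, v0 W l I * v0 W l I := by
        rw [Matrix.mul_apply, Finset.mul_sum]
        refine Finset.sum_congr rfl fun I _ => ?_
        have e2 := congrFun h9 I
        have e3 := congrFun hc I
        rw [Pi.smul_apply, smul_eq_mul] at e2 e3
        rw [Matrix.transpose_apply, e2, e3]
        ring
      have e4 : (Qᵀ * Q) i0 i0 = c * c * ∑ I, v0 W l I * v0 W l I := by
        rw [Matrix.mul_apply, Finset.mul_sum]
        refine Finset.sum_congr rfl fun I _ => ?_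
        have e3 := congrFun hc I
        rw [Pi.smul_apply, smul_eq_mul] at e3
        rw [Matrix.transpose_apply, e3]
        ring
      rw [h10] at e1
      rw [h11] at e4
      have h12 : ∑ I, v0 W l I * v0 W l I ≠ 0 := by
        intro h
        rw [h, mul_zero] at e4
        exact one_ne_zero e4
      have hc' : c' = 0 := by
        rcases mul_eq_zero.1 e1.symm with h | h
        · rcases mul_eq_zero.1 h with h | h
          · exact h
          · exact absurd h hc0
        · exact absurd h h12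
      rw [hc', zero_smul] at h9
      exact hJ k (congrFun h9 _)
  obtain ⟨M, rfl⟩ : ∃ M, m = M + 1 := ⟨m - 1, by have := i0.2; omega⟩
  let σ : Equiv.Perm (Fin (M + 1)) := Equiv.swap 0 i0
  have hσ0 : σ 0 = i0 := Equiv.swap_apply_left 0 i0
  refine ⟨⟨M, Q.submatrix id σ, ?_, fun k => h2 (σ k), fun u hu => ?_, fun k j => (tp W l j - cI W l (J (σ k)) j).toNat, ?_, ?_, ?_, c⁻¹,
    inv_ne_zero hc0, ?_⟩⟩
  · have e : (Q.submatrix id σ)ᵀ * Q.submatrix id σ = (Qᵀ * Q).submatrix σ σ := by
      ext i j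
      rfl
    rw [e, h1]
    exact Matrix.submatrix_one_equiv σ
  · have e : Q.submatrix id σ *ᵥ ((Q.submatrix id σ)ᵀ *ᵥ u) = Q *ᵥ (Qᵀ *ᵥ u) := by
      funext I
      simp only [Matrix.mulVec, dotProduct, Matrix.submatrix_apply, Matrix.transpose_apply, id]
      exact Equiv.sum_comp σ (fun k => Q I k * ∑ x, Q x k * u x)
    rw [e]
    exact h3 u hu
  · intro k I hI j
    have h5 := hcl (σ k) I hI j
    have h6 := (hlow (σ k)).1 j
    rw [h5, Int.toNat_of_nonneg (by omega)]
    ring
  · intro j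
    rw [hσ0, hi0, sub_self]
    rfl
  · intro k hk
    have h5 : σ k ≠ i0 := fun h => hk (σ.injective (h.trans hσ0.symm))
    have h6 := huniq _ h5
    omega
  · have e : (fun I => Q.submatrix id σ I 0) = fun I => Q I i0 := by
      funext I
      rw [Matrix.submatrix_apply, hσ0]
      rfl
    rw [e, hc, smul_smul, inv_mul_cancel₀ hc0, one_smul]

end Pool.Agent.Helper90.FQ
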