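import Pool.Agent.Helper90.FQ.Nr3
import Pool.Agent.Helper77.TZ2.Rel

/-!
# Project FQ (MP_0f6f3f_an), the node representations, part 4: the highest weight

`exists_wt`: every weight occurs in the weight basis. `topf W l = ∑ j, tp W l j • al j`: the highest weight as a function on the flat. `topf_tau_ne`: `topf W l (τ (al j)) = 0` for `j ≠ l`; `topf_tau_pos`: `0 < topf W l (τ (al l))`.
-/

set_option autoImplicit false
set_option linter.unusedSectionVars false

open Matrix NormedSpace Filter Topology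

namespace Pool.Agent.Helper90.FQ

open Pool.Agent.Helper96.SA Pool.Agent.Helper96.TO Pool.Agent.Helper69.SLN Pool.Agent.Helper72.FQ Pool.Agent.Helper35.TZ

variable {L : Type} [LieRing L] [LieAlgebra ℝ L] {N : ℕ} {θ : L ≃ₗ⁅ℝ⁆ L} {b : Module.Basis (Fin N) ℝ L}
  {A : Submodule ℝ L} {ι : Type} [Fintype ι] {al : ι → Module.Dual ℝ A}

variable (W : Wb b A al) (l : ι)

/-- Every weight occurs in the weight basis. -/
theorem exists_wt {φ : Module.Dual ℝ A} {x : L} (hx : Wv A φ x) (hx0 : x ≠ 0) : ∃ k, W.wt k = φ := by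
  have h1 : ∃ k, (W.Oᵀ *ᵥ b.equivFun x) k ≠ 0 := by
    by_contra hcon
    push Not at hcon
    have h2 : W.Oᵀ *ᵥ b.equivFun x = 0 := funext hcon
    have h3 : b.equivFun x = 0 := by
      have h4 : W.O *ᵥ (W.Oᵀ *ᵥ b.equivFun x) = b.equivFun x := by rw [Matrix.mulVec_mulVec, W.h2, Matrix.one_mulVec]
      rw [← h4, h2, Matrix.mulVec_zero]
    exact hx0 (b.equivFun.injective (by rw [h3, map_zero]))
  obtain ⟨k, hk⟩ := h1
  refine ⟨k, LinearMap.ext fun a => ?_⟩
  have h2 : TT_to b (a : L) *ᵥ b.equivFun x = φ a • b.equivFun x := by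
    rw [← map_smul, ← hx a, ← toLin_coord, toLin_TT_to]
  have h3 : W.Oᵀ *ᵥ (TT_to b (a : L) *ᵥ b.equivFun x) = diagonal (fun k => W.wt k a) *ᵥ (W.Oᵀ *ᵥ b.equivFun x) := by
    rw [W.dg, Matrix.mulVec_mulVec, Matrix.mulVec_mulVec, Matrix.mul_assoc, ← Matrix.mul_assoc W.Oᵀ, W.h1, Matrix.one_mul]
  rw [h2, Matrix.mulVec_smul] at h3
  have h4 := congrFun h3 k
  rw [Matrix.mulVec_diagonal, Pi.smul_apply, smul_eq_mul] at h4
  exact (mul_right_cancel₀ hk h4).symm

/-- The highest weight. -/
noncomputable def topf : Module.Dual ℝ A := ∑ j, (tp W l j : ℝ) • al j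

theorem topf_eq : topf W l = ∑ k : Fl W l, W.wt k.1 := by
  unfold topf
  have h : ∀ k : Fl W l, W.wt k.1 = ∑ j, (W.cls k.1 j : ℝ) • al j := fun k => W.eq k.1
  rw [Finset.sum_congr rfl fun k _ => h k, Finset.sum_comm]
  refine Finset.sum_congr rfl fun j _ => ?_
  rw [← Finset.sum_smul, tp]
  push_cast
  rfl

/-- The trace of a commutator on a block. -/
theorem trace_block {P : Fin N → Prop} [DecidablePred P] {X Y : Mat N} (hX : ∀ k m, X k m ≠ 0 → (P k ↔ P m)) :
    ∑ k : {k : Fin N // P k}, (X * Y - Y * X) k.1 k.1 = 0 := by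
  let D : Mat N := diagonal fun k => if P k then 1 else 0
  have h1 : D * X = X * D := by
    ext k m
    rw [Matrix.diagonal_mul, Matrix.mul_diagonal]
    by_cases h : X k m = 0
    · rw [h, mul_zero, zero_mul]
    · simp only [hX k m h, mul_comm]
  have h2 : ∀ M : Mat N, ∑ k : {k : Fin N // P k}, M k.1 k.1 = (D * M).trace := by
    intro M
    rw [Matrix.trace, ← Finset.sum_subtype (Finset.univ.filter P) (by simp) (fun k => M k k), Finset.sum_filter]
    refine Finset.sum_congr rfl fun k _ => ?_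
    rw [Matrix.diag_apply, Matrix.diagonal_mul]
    split_ifs <;> simp
  rw [h2, Matrix.mul_sub, Matrix.trace_sub, ← Matrix.mul_assoc, h1, Matrix.mul_assoc, Matrix.trace_mul_comm X, Matrix.mul_assoc, sub_self]

variable {τ : Module.Dual ℝ A ≃ₗ[ℝ] A} (hτ : ∀ (φ : Module.Dual ℝ A) (a : A), killingForm ℝ L (τ φ : L) (a : L) = φ a)

include hτ in
theorem topf_tau_ne (h : CartanBasis θ b) (hA : MaxFlat θ A) (hl : LinearIndependent ℝ al) (rt : ∀ i, al i ∈ rootsL A) {j : ι} (hj : j ≠ l) :
    topf W l (τ (al j)) = 0 := by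
  classical
  obtain ⟨_, x, hx0, hx⟩ := rt j
  have h1 := Pool.Agent.Helper77.TZ2.lie_theta_self hτ h hA hx
  have h2 : killingForm ℝ L x (θ x) ≠ 0 := by
    have := pos h hx0
    intro h3
    rw [h3] at this
    simp at this
  have h3 : hat W.O (TT_to b x) * hat W.O (TT_to b (θ x)) - hat W.O (TT_to b (θ x)) * hat W.O (TT_to b x) =
      killingForm ℝ L x (θ x) • diagonal (fun k => W.wt k (τ (al j))) := by
    rw [← hat_mul W.h2, ← hat_mul W.h2, ← hat_sub, ← TT_lie_to, h1, map_smul, hat_smul, W.hat_A]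
  have h4 := trace_block (P := fun k => 0 < W.cls k l) (X := hat W.O (TT_to b x)) (Y := hat W.O (TT_to b (θ x))) (fun k m hkm => by
    have h5 := W.hat_supp hx hkm
    have h6 : W.wt k = W.wt m + ∑ i, ((Pi.single j (1 : ℤ) : ι → ℤ) i : ℝ) • al i := by
      rw [h5]
      congr 1
      rw [Finset.sum_eq_single j]
      · rw [Pi.single_eq_same, Int.cast_one, one_smul]
      · intro i _ hi
        rw [Pi.single_eq_of_ne hi, Int.cast_zero, zero_smul]
      · intro h
        exact absurd (Finset.mem_univ _) h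
    have h7 := W.cls_eq hl h6 l
    rw [Pi.single_eq_of_ne hj.symm, add_zero] at h7
    rw [h7])
  rw [h3] at h4
  simp only [Matrix.smul_apply, Matrix.diagonal_apply_eq, smul_eq_mul, ← Finset.mul_sum] at h4
  rw [topf_eq, LinearMap.sum_apply]
  exact (mul_eq_zero.1 h4).resolve_left h2

theorem tp_pos (hl : LinearIndependent ℝ al) (rt : ∀ i, al i ∈ rootsL A) : 0 < tp W l l := by
  classical
  obtain ⟨_, x, hx0, hx⟩ := rt l
  obtain ⟨k, hk⟩ := exists_wt W hx hx0
  have h1 : W.cls k l = 1 := by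
    have h2 : ∑ j, ((W.cls k j : ℝ) - ((Pi.single l (1 : ℤ) : ι → ℤ) j : ℝ)) • al j = 0 := by
      have h3 : ∑ i, ((Pi.single l (1 : ℤ) : ι → ℤ) i : ℝ) • al i = al l := by
        rw [Finset.sum_eq_single l]
        · rw [Pi.single_eq_same, Int.cast_one, one_smul]
        · intro i _ hi
          rw [Pi.single_eq_of_ne hi, Int.cast_zero, zero_smul]
        · intro h
          exact absurd (Finset.mem_univ _) h
      have h4 : ∑ i, (W.cls k i : ℝ) • al i = al l := by rw [← W.eq, hk]
      refine LinearMap.ext fun a => ?_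
      have h5 := congrArg (fun f : Module.Dual ℝ A => f a) (h4.trans h3.symm)
      simp only [LinearMap.sum_apply, LinearMap.smul_apply, smul_eq_mul] at h5
      simp only [LinearMap.sum_apply, LinearMap.smul_apply, smul_eq_mul, sub_mul, Finset.sum_sub_distrib, h5, sub_self, LinearMap.zero_apply]
    have h3 := Fintype.linearIndependent_iff.1 hl _ h2 l
    rw [Pi.single_eq_same, Int.cast_one] at h3
    have h4 : (W.cls k l : ℝ) = 1 := by linarith
    exact_mod_cast h4
  have h2 : W.cls k l ≤ tp W l l := Finset.single_le_sum (f := fun k : Fl W l => W.cls k.1 l) (fun m _ => m.2.le) (Finset.mem_univ (⟨k, by omega⟩ : Fl W l))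
  omega

include hτ in
theorem topf_tau_pos (h : CartanBasis θ b) (hA : MaxFlat θ A) (hl : LinearIndependent ℝ al) (rt : ∀ i, al i ∈ rootsL A) :
    0 < topf W l (τ (al l)) := by
  have h1 := tp_pos W l hl rt
  have h2 : topf W l ≠ 0 := by
    intro h0
    have h3 := Fintype.linearIndependent_iff.1 hl _ h0 l
    have h4 : tp W l l = 0 := by exact_mod_cast h3
    omega
  have h3 := tau_pos hτ h hA h2
  have h4 : topf W l (τ (topf W l)) = tp W l l * topf W l (τ (al l)) := by
    have h5 : ∀ a : A, topf W l a = ∑ j, (tp W l j : ℝ) * al j a := by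
      intro a
      rw [topf, LinearMap.sum_apply]
      rfl
    rw [h5, Finset.sum_eq_single l]
    · rw [tau_symm hτ]
    · intro j _ hj
      rw [tau_symm hτ, topf_tau_ne W l hτ h hA hl rt hj, mul_zero]
    · intro h
      exact absurd (Finset.mem_univ _) h
  rw [h4] at h3
  have h5 : (0 : ℝ) < tp W l l := by exact_mod_cast h1
  exact (mul_pos_iff_of_pos_left h5).1 h3

end Pool.Agent.Helper90.FQ
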