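import Pool.Agent.Helper90.FQ.Nr4

/-!
# Project FQ (MP_0f6f3f_an), the node representations, part 5: the second weight

`exists_low`: the weight `topf W l - al l` occurs in the module: there is `i` with `B.n i j = 1` for `j = l` and `0` otherwise.
-/

set_option autoImplicit false
set_option linter.unusedSectionVars false

open Matrix NormedSpace Filter Topology

namespace Pool.Agent.Helper90.FQ

open Pool.Agent.Helper96.SA Pool.Agent.Helper96.TO Pool.Agent.Helper69.SLN Pool.Agent.Helper72.FQ Pool.Agent.Helper35.TZ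

variable {L : Type} [LieRing L] [LieAlgebra ℝ L] {N : ℕ} {θ : L ≃ₗ⁅ℝ⁆ L} {b : Module.Basis (Fin N) ℝ L}
  {A : Submodule ℝ L} {ι : Type} [Fintype ι] [DecidableEq ι] {al : ι → Module.Dual ℝ A}

variable (W : Wb b A al) (l : ι)

theorem sum_single (c : ℤ) : ∑ i, ((Pi.single l c : ι → ℤ) i : ℝ) • al i = (c : ℝ) • al l := by
  rw [Finset.sum_eq_single l]
  · rw [Pi.single_eq_same]
  · intro i _ hi
    rw [Pi.single_eq_of_ne hi, Int.cast_zero, zero_smul]
  · intro h
    exact absurd (Finset.mem_univ _) h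

theorem Dh_x (hl : LinearIndependent ℝ al) {x : L} (hx : Wv A (al l) x) : Dh W l x (v0 W l) = 0 := by
  have hx' : Wv A (∑ i, ((Pi.single l (1 : ℤ) : ι → ℤ) i : ℝ) • al i) x := by
    rw [sum_single, Int.cast_one, one_smul]
    exact hx
  have h1 := Dh_v0 W l hl (by rw [Pi.single_eq_same]; exact zero_le_one) hx'
  obtain ⟨c, hc⟩ := Submodule.mem_span_singleton.1 h1
  by_contra h2
  have h3 : Dh W l x (v0 W l) Subtype.val ≠ 0 := by
    rw [← hc, Pi.smul_apply, v0_self, smul_eq_mul, mul_one]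
    rintro rfl
    rw [zero_smul] at hc
    exact h2 hc.symm
  obtain ⟨I', h4, h5⟩ := Dh_supp W l hl hx' h3
  have h6 := h5 l
  rw [v0_supp W l h4, v0_supp W l (by rw [v0_self]; exact one_ne_zero), Pi.single_eq_same] at h6
  omega

/-- The action of the flat on `v0`. -/
theorem Dh_A_v0 (a : A) : Dh W l (a : L) (v0 W l) = topf W l a • v0 W l := by
  funext I
  rw [Dh_A, Pi.smul_apply, smul_eq_mul]
  by_cases hI : v0 W l I = 0
  · rw [hI, mul_zero, mul_zero]
  · rw [wt_cI, topf, LinearMap.sum_apply]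
    congr 1
    refine Finset.sum_congr rfl fun j _ => ?_
    rw [v0_supp W l hI]
    rfl

variable {τ : Module.Dual ℝ A ≃ₗ[ℝ] A} (hτ : ∀ (φ : Module.Dual ℝ A) (a : A), killingForm ℝ L (τ φ : L) (a : L) = φ a)

include hτ in
/-- The weight `topf W l - al l` occurs in the module. -/
theorem NB.exists_low {W : Wb b A al} {l : ι} (B : NB W l) (h : CartanBasis θ b) (hA : MaxFlat θ A) (hl : LinearIndependent ℝ al)
    (rt : ∀ i, al i ∈ rootsL A) : ∃ i, ∀ j, B.n i j = if j = l then 1 else 0 := by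
  obtain ⟨_, x, hx0, hx⟩ := rt l
  have h1 := Pool.Agent.Helper77.TZ2.lie_theta_self hτ h hA hx
  have h2 : killingForm ℝ L x (θ x) ≠ 0 := by
    have := pos h hx0
    intro h3
    rw [h3] at this
    simp at this
  have hy : Wv A (-al l) (θ x) := Wv.theta hA hx
  have hne : Dh W l (θ x) (v0 W l) ≠ 0 := by
    intro h3
    have h4 := Dh_lie W l x (θ x) (v0 W l)
    rw [h3, Dh_x W l hl hx, map_zero, map_zero, sub_zero, h1, map_smul, LinearMap.smul_apply, Dh_A_v0] at h4
    rcases smul_eq_zero.1 h4 with h5 | h5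
    · exact h2 h5
    · rcases smul_eq_zero.1 h5 with h6 | h6
      · exact (topf_tau_pos W l hτ h hA hl rt).ne' h6
      · exact v0_ne W l h6
  have hmem : Dh W l (θ x) (v0 W l) ∈ UU W l := UU_L W l hl _ (v0_mem_UU W l)
  have hy' : Wv A (∑ i, ((Pi.single l (-1 : ℤ) : ι → ℤ) i : ℝ) • al i) (θ x) := by
    rw [sum_single, Int.cast_neg, Int.cast_one]
    have e : (-1 : ℝ) • al l = -al l := LinearMap.ext fun a => by
      rw [LinearMap.smul_apply, LinearMap.neg_apply, smul_eq_mul, neg_one_mul]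
    rw [e]
    exact hy
  have h3 := B.pr _ hmem
  have h4 : ∃ k, (B.Qᵀ *ᵥ (Dh W l (θ x) (v0 W l))) k ≠ 0 := by
    by_contra hcon
    push Not at hcon
    have h5 : B.Qᵀ *ᵥ (Dh W l (θ x) (v0 W l)) = 0 := funext hcon
    rw [h5, Matrix.mulVec_zero] at h3
    exact hne h3.symm
  obtain ⟨k, hk⟩ := h4
  rw [Matrix.mulVec, dotProduct] at hk
  obtain ⟨I, _, hI⟩ := Finset.exists_ne_zero_of_sum_ne_zero hk
  have h5 := B.wt k I (left_ne_zero_of_mul hI)
  obtain ⟨I', h6, h7⟩ := Dh_supp W l hl hy' (right_ne_zero_of_mul hI)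
  refine ⟨k, fun j => ?_⟩
  have h8 := h5 j
  have h9 := h7 j
  rw [v0_supp W l h6] at h9
  by_cases hj : j = l
  · subst hj
    rw [Pi.single_eq_same] at h9
    rw [if_pos rfl]
    omega
  · rw [Pi.single_eq_of_ne hj] at h9
    rw [if_neg hj]
    omega

end Pool.Agent.Helper90.FQ
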